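import Pool.Agent.Helper28.T3.StC

/-!
# Project T3, module CCNq: the sum over `c`, general modulus
-/

set_option autoImplicit false

open MeasureTheory

namespace Pool.Agent.Helper22.T3

open Pool.Agent.Helper28.T3

private lemma cardS (S : Finset ℤ) (lo hi : ℝ) (h : lo ≤ hi)
    (hS : ∀ k ∈ S, lo ≤ (k : ℝ) ∧ (k : ℝ) ≤ hi) : (S.card : ℝ) ≤ hi - lo + 1 := by
  rcases S.eq_empty_or_nonempty with rfl | ⟨k0, hk0⟩
  · simp only [Finset.card_empty, Nat.cast_zero]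
    linarith
  · have hsub : S ⊆ Finset.Icc ⌈lo⌉ ⌊hi⌋ := by
      intro k hk
      rw [Finset.mem_Icc]
      exact ⟨Int.ceil_le.2 (hS k hk).1, Int.le_floor.2 (hS k hk).2⟩
    have h1 : ⌈lo⌉ ≤ ⌊hi⌋ :=
      (Finset.mem_Icc.1 (hsub hk0)).1.trans (Finset.mem_Icc.1 (hsub hk0)).2
    have h2 := Finset.card_le_card hsub
    rw [Int.card_Icc] at h2
    have h3 : ((⌊hi⌋ + 1 - ⌈lo⌉).toNat : ℤ) = ⌊hi⌋ + 1 - ⌈lo⌉ := Int.toNat_of_nonneg (by omega)
    have h4 : (S.card : ℝ) ≤ ((⌊hi⌋ + 1 - ⌈lo⌉).toNat : ℝ) := by exact_mod_cast h2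
    have h5 : ((⌊hi⌋ + 1 - ⌈lo⌉).toNat : ℝ) = (⌊hi⌋ : ℝ) + 1 - (⌈lo⌉ : ℝ) := by exact_mod_cast h3
    have h6 := Int.floor_le hi
    have h7 := Int.le_ceil lo
    linarith

theorem hCCNq : StUM → StWM → StCCNq := by
  classical
  intro hUM hWM q hq X a b c0 G hX ha hG
  have hqR : (1 : ℝ) ≤ (q : ℝ) := by exact_mod_cast hq
  have hq0 : (0 : ℝ) < (q : ℝ) := by linarith
  have haR : (1 : ℝ) ≤ (a : ℝ) := by exact_mod_cast ha
  have ha0 : (0 : ℝ) < (a : ℝ) := by linarith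
  obtain ⟨w1, w2, w3, w4, w5⟩ := hWM X (a : ℝ) hX ha0
  have hnn : ∀ x, 0 ≤ Wf X (a : ℝ) x := fun x => le_max_left _ _
  have hsX : 0 ≤ Real.sqrt X := Real.sqrt_nonneg X
  have hs3 : 0 ≤ Real.sqrt (X / 3) := Real.sqrt_nonneg _
  -- vanishing above
  have hup : ∀ x, Real.sqrt (X / 3) < x → Wf X (a : ℝ) x = 0 := by
    intro x hx
    have hx0 : 0 ≤ x := hs3.trans hx.le
    apply w2 x hx0
    have h1 : Real.sqrt (X / 3) ^ 2 = X / 3 := Real.sq_sqrt (by positivity)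
    nlinarith
  have hout : ∀ x, x ∉ Set.Ioc (0 : ℝ) (Real.sqrt (X / 3)) → Wf X (a : ℝ) x = 0 := by
    intro x hx
    by_cases h0 : x ≤ 0
    · exact w1 x h0
    · apply hup
      by_contra h1
      exact hx ⟨not_le.1 h0, not_lt.1 h1⟩
  have hint : Integrable (Wf X (a : ℝ)) := by
    apply w4.integrable_of_hasCompactSupport
    refine HasCompactSupport.intro (isCompact_Icc (a := (0 : ℝ)) (b := Real.sqrt (X / 3))) ?_
    intro x hx
    apply hout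
    intro h
    exact hx ⟨h.1.le, h.2⟩
  have hI : ∫ x, Wf X (a : ℝ) x = IW X (a : ℝ) := by
    rw [IW, intervalIntegral.integral_of_le hs3]
    exact (setIntegral_eq_integral_of_forall_compl_eq_zero hout).symm
  -- the peak
  have hp0 : (0 : ℝ) < (a : ℝ) ^ 2 * X / 4 := by positivity
  have hp3 : (((a : ℝ) ^ 2 * X / 4) ^ ((1 : ℝ) / 3)) ^ 3 = (a : ℝ) ^ 2 * X / 4 := by
    rw [← Real.rpow_natCast, ← Real.rpow_mul hp0.le]
    norm_num
  obtain ⟨hmono, hanti⟩ := w5 (((a : ℝ) ^ 2 * X / 4) ^ ((1 : ℝ) / 3)) (Real.rpow_pos_of_pos hp0 _)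
    (by rw [hp3]; ring)
  -- the progression
  have hinj : Set.InjOn (fun c : ℤ => -(c / (q : ℤ))) (G : Set ℤ) := by
    intro c hc c' hc' h
    have e1 := (hG c hc).1
    have e2 := (hG c' hc').1
    have h' : -(c / (q : ℤ)) = -(c' / (q : ℤ)) := h
    have h2 : c / (q : ℤ) = c' / (q : ℤ) := by linarith
    rw [← Int.emod_add_mul_ediv c (q : ℤ), ← Int.emod_add_mul_ediv c' (q : ℤ), e1, e2, h2]
  have hval : ∀ c ∈ G, ((cA a b c : ℤ) : ℝ) =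
      ((b : ℝ) ^ 2 - (a : ℝ) * (c0 : ℝ)) + (q : ℝ) * (a : ℝ) * ((-(c / (q : ℤ)) : ℤ) : ℝ) := by
    intro c hc
    have e1 := (hG c hc).1
    have e2 : c = c0 + (q : ℤ) * (c / (q : ℤ)) := by
      rw [← e1]
      exact (Int.emod_add_mul_ediv c (q : ℤ)).symm
    have e3 : cA a b c = (b ^ 2 - a * c0) + (q : ℤ) * a * (-(c / (q : ℤ))) := by
      unfold cA
      linear_combination (-a) * e2
    rw [e3]
    push_cast
    ring
  have hsum : ∑ c ∈ G, Wf X (a : ℝ) ((cA a b c : ℤ) : ℝ) =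
      ∑ k ∈ G.image (fun c : ℤ => -(c / (q : ℤ))), Wf X (a : ℝ)
        (((b : ℝ) ^ 2 - (a : ℝ) * (c0 : ℝ)) + (q : ℝ) * (a : ℝ) * (k : ℝ)) := by
    rw [Finset.sum_image hinj]
    exact Finset.sum_congr rfl fun c hc => by rw [hval c hc]
  have hum := hUM (Wf X (a : ℝ)) _ ((q : ℝ) * (a : ℝ)) ((a : ℝ) * Real.sqrt X)
    ((b : ℝ) ^ 2 - (a : ℝ) * (c0 : ℝ)) (G.image (fun c : ℤ => -(c / (q : ℤ)))) (by positivity)
    (by positivity) hnn hmono hanti hint (fun k _ => w3 _)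
  rw [← hsum, hI] at hum
  -- the number of terms
  have hcard : (G.card : ℝ) ≤ Real.sqrt (X / 3) / ((q : ℝ) * (a : ℝ)) + 1 := by
    have h1 := cardS (G.image (fun c : ℤ => -(c / (q : ℤ))))
      ((0 - ((b : ℝ) ^ 2 - (a : ℝ) * (c0 : ℝ))) / ((q : ℝ) * (a : ℝ)))
      ((Real.sqrt (X / 3) - ((b : ℝ) ^ 2 - (a : ℝ) * (c0 : ℝ))) / ((q : ℝ) * (a : ℝ)))
      (by
        apply div_le_div_of_nonneg_right _ (by positivity)
        linarith)
      (by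
        intro k hk
        obtain ⟨c, hc, rfl⟩ := Finset.mem_image.1 hk
        obtain ⟨-, g2, g3⟩ := hG c hc
        have hm1 : (1 : ℝ) ≤ ((cA a b c : ℤ) : ℝ) := by exact_mod_cast g2
        have hm2 : ((cA a b c : ℤ) : ℝ) ≤ Real.sqrt (X / 3) := by
          apply Real.le_sqrt_of_sq_le
          linarith
        rw [hval c hc] at hm1 hm2
        constructor
        · rw [div_le_iff₀ (by positivity)]
          linarith
        · rw [le_div_iff₀ (by positivity)]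
          linarith)
    rw [Finset.card_image_of_injOn hinj] at h1
    refine h1.trans (le_of_eq ?_)
    rw [← sub_div]
    ring
  have hs3X : Real.sqrt (X / 3) ≤ Real.sqrt X := Real.sqrt_le_sqrt (by linarith)
  -- conclusion
  have htot : ∑ c ∈ G, (Wf X (a : ℝ) ((cA a b c : ℤ) : ℝ) / ((q : ℝ) * (a : ℝ) ^ 2) + 1) =
      (∑ c ∈ G, Wf X (a : ℝ) ((cA a b c : ℤ) : ℝ)) / ((q : ℝ) * (a : ℝ) ^ 2) + (G.card : ℝ) := by
    rw [Finset.sum_add_distrib, Finset.sum_div]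
    simp
  rw [htot]
  have h1 : (∑ c ∈ G, Wf X (a : ℝ) ((cA a b c : ℤ) : ℝ)) / ((q : ℝ) * (a : ℝ) ^ 2) ≤
      (1 / ((q : ℝ) * (a : ℝ)) * IW X (a : ℝ) + 2 * ((a : ℝ) * Real.sqrt X)) / ((q : ℝ) * (a : ℝ) ^ 2) :=
    div_le_div_of_nonneg_right hum (by positivity)
  have h2 : (1 / ((q : ℝ) * (a : ℝ)) * IW X (a : ℝ) + 2 * ((a : ℝ) * Real.sqrt X)) /
      ((q : ℝ) * (a : ℝ) ^ 2) =
      IW X (a : ℝ) / ((q : ℝ) ^ 2 * (a : ℝ) ^ 3) + 2 * (Real.sqrt X / ((q : ℝ) * (a : ℝ))) := by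
    field_simp
  have h3 : Real.sqrt (X / 3) / ((q : ℝ) * (a : ℝ)) ≤ Real.sqrt X / ((q : ℝ) * (a : ℝ)) :=
    div_le_div_of_nonneg_right hs3X (by positivity)
  have h4 : Real.sqrt X / ((q : ℝ) * (a : ℝ)) ≤ Real.sqrt X / (a : ℝ) := by
    apply div_le_div_of_nonneg_left hsX ha0
    nlinarith
  have h5 : 3 * Real.sqrt X / (a : ℝ) = 3 * (Real.sqrt X / (a : ℝ)) := by ring
  rw [h5]
  linarith

end Pool.Agent.Helper22.T3
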