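import Pool.Agent.Helper28.T3.StB

/-!
# Project T3, module UM: sums of unimodal functions over an arithmetic progression
-/

set_option autoImplicit false

open MeasureTheory

namespace Pool.Agent.Helper22.T3

open Pool.Agent.Helper28.T3

theorem hUM : StUM := by
  intro f p h B x0 S hh hB hf hmono hanti hint hSB
  classical
  -- the intervals
  set J : ℤ → Set ℝ := fun k => Set.Ioc (x0 + h * k) (x0 + h * ((k + 1 : ℤ) : ℝ)) with hJ
  set I : ℤ → ℝ := fun k => ∫ x in J k, f x with hI
  have hJm : ∀ k, MeasurableSet (J k) := fun k => measurableSet_Ioc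
  have hJv : ∀ k, (volume (J k)).toReal = h := by
    intro k
    rw [hJ]
    simp only [Real.volume_Ioc]
    rw [ENNReal.toReal_ofReal]
    · push_cast
      ring
    · push_cast
      nlinarith
  have hJd : ∀ k l, k ≠ l → Disjoint (J k) (J l) := by
    intro k l hkl
    rw [Set.disjoint_left]
    intro x hx hy
    rcases lt_or_gt_of_ne hkl with h1 | h1
    · have h2 : ((k + 1 : ℤ) : ℝ) ≤ (l : ℝ) := by exact_mod_cast h1
      have h3 := hx.2
      have h4 := hy.1
      nlinarith
    · have h2 : ((l + 1 : ℤ) : ℝ) ≤ (k : ℝ) := by exact_mod_cast h1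
      have h3 := hy.2
      have h4 := hx.1
      nlinarith
  -- the total of the integrals
  have htot : ∀ T : Finset ℤ, ∑ k ∈ T, I k ≤ ∫ x, f x := by
    intro T
    have h1 : ∑ k ∈ T, I k = ∫ x in ⋃ k ∈ T, J k, f x := by
      rw [hI]
      symm
      exact integral_biUnion_finset T (fun k _ => hJm k)
        (fun k _ l _ hkl => hJd k l hkl) (fun k _ => hint.integrableOn)
    rw [h1]
    exact setIntegral_le_integral hint (Filter.Eventually.of_forall hf)
  -- lower bounds
  have hlow : ∀ (k : ℤ) (c : ℝ), (∀ x ∈ J k, c ≤ f x) → h * c ≤ I k := by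
    intro k c hc
    have h1 : ∫ _ in J k, c ≤ I k := by
      refine setIntegral_mono_on ?_ hint.integrableOn (hJm k) hc
      refine integrableOn_const ?_
      rw [hJ]
      simp
    rw [setIntegral_const, measureReal_def, hJv, smul_eq_mul] at h1
    exact h1
  have hA : ∀ k : ℤ, x0 + h * ((k + 1 : ℤ) : ℝ) ≤ p → h * f (x0 + h * k) ≤ I k := by
    intro k hk
    refine hlow k _ fun x hx => ?_
    have hx2 : x ≤ p := hx.2.trans hk
    exact hmono (show x0 + h * (k : ℝ) ∈ Set.Iic p from hx.1.le.trans hx2) hx2 hx.1.le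
  have hC : ∀ k : ℤ, p ≤ x0 + h * ((k - 1 : ℤ) : ℝ) → h * f (x0 + h * k) ≤ I (k - 1) := by
    intro k hk
    refine hlow (k - 1) _ fun x hx => ?_
    have hx1 : x ≤ x0 + h * (k : ℝ) := by
      have := hx.2
      simpa using this
    have hx2 : p ≤ x := hk.trans hx.1.le
    exact hanti (show x ∈ Set.Ici p from hx2) (show x0 + h * (k : ℝ) ∈ Set.Ici p from hx2.trans hx1)
      hx1
  -- the partition of the sum
  set SA : Finset ℤ := S.filter (fun k => x0 + h * ((k + 1 : ℤ) : ℝ) ≤ p) with hSA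
  set S1 : Finset ℤ := S.filter (fun k => ¬ x0 + h * ((k + 1 : ℤ) : ℝ) ≤ p) with hS1
  set SC : Finset ℤ := S1.filter (fun k => p ≤ x0 + h * ((k - 1 : ℤ) : ℝ)) with hSC
  set SR : Finset ℤ := S1.filter (fun k => ¬ p ≤ x0 + h * ((k - 1 : ℤ) : ℝ)) with hSR
  have hsum : ∑ k ∈ S, f (x0 + h * k) = ∑ k ∈ SA, f (x0 + h * k) +
      (∑ k ∈ SC, f (x0 + h * k) + ∑ k ∈ SR, f (x0 + h * k)) := by
    rw [hSC, hSR, Finset.sum_filter_add_sum_filter_not, hSA, hS1,
      Finset.sum_filter_add_sum_filter_not]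
  have hR : ∑ k ∈ SR, f (x0 + h * k) ≤ 2 * B := by
    have hsub : SR ⊆ {⌊(p - x0) / h⌋, ⌊(p - x0) / h⌋ + 1} := by
      intro k hk
      rw [hSR, hS1, Finset.mem_filter, Finset.mem_filter] at hk
      obtain ⟨⟨_, h1⟩, h2⟩ := hk
      push Not at h1 h2
      push_cast at h1 h2
      have h3 : (p - x0) / h < (k : ℝ) + 1 := by
        rw [div_lt_iff₀ hh]
        nlinarith
      have h4 : (k : ℝ) - 1 < (p - x0) / h := by
        rw [lt_div_iff₀ hh]
        nlinarith
      have h5 : ⌊(p - x0) / h⌋ < k + 1 := by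
        rw [Int.floor_lt]
        push_cast
        exact h3
      have h6 : k - 1 ≤ ⌊(p - x0) / h⌋ := by
        rw [Int.le_floor]
        push_cast
        exact h4.le
      rw [Finset.mem_insert, Finset.mem_singleton]
      omega
    have hcard : SR.card ≤ 2 := (Finset.card_le_card hsub).trans Finset.card_le_two
    have h1 : ∑ k ∈ SR, f (x0 + h * k) ≤ ∑ _k ∈ SR, B := by
      refine Finset.sum_le_sum fun k hk => hSB k ?_
      rw [hSR, hS1, Finset.mem_filter, Finset.mem_filter] at hk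
      exact hk.1.1
    rw [Finset.sum_const, nsmul_eq_mul] at h1
    have h2 : (SR.card : ℝ) ≤ 2 := by exact_mod_cast hcard
    nlinarith
  have hAC : h * (∑ k ∈ SA, f (x0 + h * k) + ∑ k ∈ SC, f (x0 + h * k)) ≤ ∫ x, f x := by
    have hinj : Set.InjOn (fun k : ℤ => k - 1) (SC : Set ℤ) := by
      intro a _ b _ hab
      have : a - 1 = b - 1 := hab
      omega
    have hdis : Disjoint SA (SC.image fun k => k - 1) := by
      rw [Finset.disjoint_left]
      intro k hk1 hk2
      rw [hSA, Finset.mem_filter] at hk1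
      obtain ⟨l, hl, hlk⟩ := Finset.mem_image.1 hk2
      rw [hSC, Finset.mem_filter] at hl
      have h1 := hk1.2
      have h2 := hl.2
      rw [hlk] at h2
      push_cast at h1 h2
      nlinarith
    have h1 : ∑ k ∈ SA ∪ SC.image (fun k => k - 1), I k =
        ∑ k ∈ SA, I k + ∑ k ∈ SC, I (k - 1) := by
      rw [Finset.sum_union hdis, Finset.sum_image hinj]
    have h2 : ∑ k ∈ SA, h * f (x0 + h * k) ≤ ∑ k ∈ SA, I k := by
      refine Finset.sum_le_sum fun k hk => hA k ?_
      rw [hSA, Finset.mem_filter] at hk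
      exact hk.2
    have h3 : ∑ k ∈ SC, h * f (x0 + h * k) ≤ ∑ k ∈ SC, I (k - 1) := by
      refine Finset.sum_le_sum fun k hk => hC k ?_
      rw [hSC, Finset.mem_filter] at hk
      exact hk.2
    rw [mul_add, Finset.mul_sum, Finset.mul_sum]
    calc _ ≤ ∑ k ∈ SA, I k + ∑ k ∈ SC, I (k - 1) := add_le_add h2 h3
      _ = ∑ k ∈ SA ∪ SC.image (fun k => k - 1), I k := h1.symm
      _ ≤ ∫ x, f x := htot _
  have hAC2 : ∑ k ∈ SA, f (x0 + h * k) + ∑ k ∈ SC, f (x0 + h * k) ≤ (1 / h) * ∫ x, f x := by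
    rw [one_div, ← div_eq_inv_mul, le_div_iff₀ hh]
    linarith
  rw [hsum]
  linarith

end Pool.Agent.Helper22.T3
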